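import Pool.Agent.V11327.ULfin

/-!
`UC` on Baire space is not Weihrauch reducible to `List ⋆ List`; hence `List ⋆ List` and `UC` are
not Weihrauch equivalent. (Definitions in `Pool.Agent.V11327.WBdefs`, `ULcore` and `ULfin`.)
-/

set_option autoImplicit false

namespace Pool.Agent.Results.MP_b67dab_lc.TwoListsBelowUniqueChoice

open Pool.Agent.V11327.WB Pool.Agent.V11327.UL

/-- Negative answer: unique choice on Baire space is not reducible to the compositional product of
`List` with itself, i.e. to any `f₀ ∘ g₀` with `f₀`, `g₀` reducible to `List`; not even by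
continuous maps. -/
theorem result :
    (∀ h : Prob, IsStar h listC listC → ¬ WReducible ucBaire h) ∧
    (∀ f₀ g₀ : Prob, WReducible f₀ listC → WReducible g₀ listC →
      ¬ WReducible ucBaire (comp f₀ g₀)) ∧
    (∀ f₀ g₀ : Prob, ContReducible f₀ listC → ContReducible g₀ listC →
      ¬ ContReducible ucBaire (comp f₀ g₀)) := by
  refine ⟨?_, ?_, ?_⟩
  · rintro h ⟨⟨f₀, g₀, hf, hg, h1, -⟩, -⟩ hu
    exact not_cont hf.cont hg.cont (ContReducible.trans hu.cont h1.cont)
  · intro f₀ g₀ hf hg hu
    exact not_cont hf.cont hg.cont hu.cont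
  · intro f₀ g₀ hf hg
    exact not_cont hf hg

end Pool.Agent.Results.MP_b67dab_lc.TwoListsBelowUniqueChoice
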